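import Pool.Agent.Lib.MP_1bbcfd_lc.PT.MFinal

set_option autoImplicit false

namespace Pool.Agent.Results.MP_1bbcfd_lc.PTAS

open Pool.Agent.Lib.MP_1bbcfd_lc

/-- A deterministic polynomial-time approximation scheme: polynomially many oracle calls, and the
next action is computed from the input and the answers so far in polynomial time. -/
theorem result (ε : ℝ) (hε : 0 < ε) :
    ∃ (σ : Input × List Bool → Bool × Bool × List ℕ) (p : Polynomial ℕ),
      Nonempty (Turing.TM2ComputableInPolyTime inCode actCode σ) ∧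
      ∀ (I : Input) (M₁ M₂ : Matroid (Fin I.n)), M₁.E = Set.univ → M₂.E = Set.univ →
        (∃ B : Finset (Fin I.n), M₁.IsBase (B : Set (Fin I.n)) ∧ M₂.IsBase (B : Set (Fin I.n)) ∧
          I.k ≤ B.card) →
        ∃ X : Finset (Fin I.n), run (control σ I) (oracle M₁ M₂) (p.eval I.n) [] = some X ∧
          Feasible M₁ M₂ I.k X ∧ ∀ Y : Finset (Fin I.n), Feasible M₁ M₂ I.k Y →
            (1 - ε) * ((∑ e ∈ Y, I.w e : ℚ≥0) : ℝ) ≤ ((∑ e ∈ X, I.w e : ℚ≥0) : ℝ) :=
  PM.main ε hε

end Pool.Agent.Results.MP_1bbcfd_lc.PTAS
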